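import Pool.Agent.helper17.HH.SpecB

/-!
# MP_07c750, project HH, row BMU: multipliers
-/

open scoped Pointwise

set_option autoImplicit false

namespace Pool.Agent.HH

noncomputable section

theorem BMU_scale (h : RCV_stmt) {r c : ℝ} (hr : 0 < r) (hc : 1 / r ≤ c) (F : Finset ℝ) : (cov 1 F : ℝ) ≤ (c + 2) * cov 1 (dil r F) := by
  have h0 : 0 < 1 / r := by positivity
  have h1 : cov 1 (dil r F) = cov (1 / r) F := by
    have h2 := h.dl (1 / r) r F hr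
    rwa [mul_one_div_cancel hr.ne'] at h2
  have h3 : (0 : ℝ) ≤ cov (1 / r) F := Nat.cast_nonneg _
  rw [h1]
  rcases le_total (1 / r) 1 with h4 | h4
  · have h5 : (cov 1 F : ℝ) ≤ 2 * cov (1 / r) F := by exact_mod_cast h.co (1 / r) 1 F h0 h4
    nlinarith
  · have h5 := h.fi 1 (1 / r) F one_pos h4
    have h6 : 1 / r / 1 + 2 ≤ c + 2 := by rw [div_one]; linarith
    exact h5.trans (mul_le_mul_of_nonneg_right h6 h3)

theorem BMU_dil {r q : ℝ} (hr : r ≠ 0) (E E0 : Finset ℝ) : dil r E - dil q E0 = dil r (E - dil (q / r) E0) := by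
  ext x
  simp only [dil, Finset.mem_sub, Finset.mem_image]
  constructor
  · rintro ⟨_, ⟨a, ha, rfl⟩, _, ⟨b, hb, rfl⟩, rfl⟩
    refine ⟨a - q / r * b, ⟨a, ha, q / r * b, ⟨b, hb, rfl⟩, rfl⟩, ?_⟩
    field_simp
  · rintro ⟨_, ⟨a, ha, _, ⟨b, hb, rfl⟩, rfl⟩, rfl⟩
    refine ⟨r * a, ⟨a, ha, rfl⟩, q * b, ⟨b, hb, rfl⟩, ?_⟩
    field_simp

theorem BMU_cel (s : ℝ) (A : Finset ℤ) : cel 1 (dil s (A.image fun a : ℤ => (a : ℝ))) = A.image (fun a : ℤ => ⌊s * a⌋) := by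
  ext k
  simp only [cel, dil, Finset.mem_image, div_one]
  constructor
  · rintro ⟨_, ⟨_, ⟨a, ha, rfl⟩, rfl⟩, rfl⟩
    exact ⟨a, ha, rfl⟩
  · rintro ⟨a, ha, rfl⟩
    exact ⟨_, ⟨_, ⟨a, ha, rfl⟩, rfl⟩, rfl⟩

theorem BMU_neg (h : RCV_stmt) (E F : Finset ℝ) : cov 1 (E - F) ≤ 2 * cov 1 (F - E) := by
  have h1 : E - F = dil (-1) (F - E) := by
    ext x
    simp only [dil, Finset.mem_sub, Finset.mem_image]
    constructor
    · rintro ⟨a, ha, b, hb, rfl⟩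
      exact ⟨b - a, ⟨b, hb, a, ha, rfl⟩, by ring⟩
    · rintro ⟨_, ⟨b, hb, a, ha, rfl⟩, rfl⟩
      exact ⟨a, ha, b, hb, by ring⟩
  rw [h1]
  exact h.ng 1 (F - E)

/-- the first step -/
theorem BMU_one (h : RCV_stmt) {s s0 K : ℝ} (h1 : 1 / 4 ≤ s) (A A0 : Finset ℤ)
    (hK : ((A.image (fun a : ℤ => ⌊s * a⌋) - A0.image (fun a : ℤ => ⌊s0 * a⌋)).card : ℝ) ≤ K) :
    (cov 1 ((A.image fun a : ℤ => (a : ℝ)) - dil (s0 / s) (A0.image fun a : ℤ => (a : ℝ))) : ℝ) ≤ 12 * K := by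
  have hs : 0 < s := by linarith
  have h2 := h.s1 1 (dil s (A.image fun a : ℤ => (a : ℝ))) (dil s0 (A0.image fun a : ℤ => (a : ℝ)))
  rw [BMU_cel, BMU_cel, BMU_dil hs.ne'] at h2
  have h3 : (cov 1 (dil s ((A.image fun a : ℤ => (a : ℝ)) - dil (s0 / s) (A0.image fun a : ℤ => (a : ℝ)))) : ℝ) ≤
      2 * ((A.image (fun a : ℤ => ⌊s * a⌋) - A0.image (fun a : ℤ => ⌊s0 * a⌋)).card : ℝ) := by exact_mod_cast h2
  have h4 : 1 / s ≤ 4 := by
    rw [div_le_iff₀ hs]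
    linarith
  have h5 := BMU_scale h hs h4 ((A.image fun a : ℤ => (a : ℝ)) - dil (s0 / s) (A0.image fun a : ℤ => (a : ℝ)))
  linarith

theorem BMU_proof (h : RCV_stmt) (h1 : RRU_stmt) : BMU_stmt := by
  refine ⟨78336, by norm_num, ?_⟩
  intro N K s t s0 t0 A A0 hN hs hs8 ht ht8 hs0 hs08 ht0 ht08 _ hK1 hK2
  have hN0 : 0 < 1 / N := by positivity
  have hsp : 0 < s := by linarith
  have hs0p : 0 < s0 := by linarith
  have htp : 0 < t := by linarith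
  have hK : 0 ≤ K := (Nat.cast_nonneg _).trans hK1
  set E : Finset ℝ := A.image fun a : ℤ => (a : ℝ) with hE
  set E0 : Finset ℝ := A0.image fun a : ℤ => (a : ℝ) with hE0
  have e1 : (A0.image fun a : ℤ => (a : ℝ) / N) = dil (1 / N) E0 := by
    rw [hE0, dil, Finset.image_image]
    refine Finset.image_congr fun a _ => ?_
    show (a : ℝ) / N = 1 / N * a
    ring
  have e2 : dil (t0 / t * (s / s0)) (dil (1 / N) E0) = dil (1 / N * (t0 / t * (s / s0))) E0 := by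
    rw [dil, dil, dil, Finset.image_image]
    refine Finset.image_congr fun a _ => ?_
    show t0 / t * (s / s0) * (1 / N * a) = 1 / N * (t0 / t * (s / s0)) * a
    ring
  have e3 : cov (1 / N) (dil (1 / N) E0 - dil (1 / N * (t0 / t * (s / s0))) E0) = cov 1 (E0 - dil (t0 / t * (s / s0)) E0) := by
    rw [BMU_dil hN0.ne', mul_div_cancel_left₀ _ hN0.ne']
    have h2 := h.dl 1 (1 / N) (E0 - dil (t0 / t * (s / s0)) E0) hN0
    rwa [mul_one] at h2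
  rw [e1, e2, e3]
  have f1 : (cov 1 (E - dil (s0 / s) E0) : ℝ) ≤ 12 * K := BMU_one h hs A A0 hK1
  have f2 : (cov 1 (E - dil (t0 / t) E0) : ℝ) ≤ 12 * K := BMU_one h ht A A0 hK2
  have f3 : (cov 1 (dil (s0 / s) E0 - E) : ℝ) ≤ 2 * cov 1 (E - dil (s0 / s) E0) := by exact_mod_cast BMU_neg h _ _
  have f4 : (cov 1 (dil (s0 / s) E0 - dil (t0 / t) E0) : ℝ) * cov 1 E ≤ 8 * (cov 1 (dil (s0 / s) E0 - E) * cov 1 (E - dil (t0 / t) E0)) := by
    exact_mod_cast h1 1 (dil (s0 / s) E0) E (dil (t0 / t) E0)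
  have f5 : (A.card : ℝ) ≤ cov 1 E := by
    have h2 : E.card = A.card := Finset.card_image_of_injective _ Int.cast_injective
    rw [← h2]
    exact_mod_cast h.cc 1 E one_pos (by
      intro x hx y hy hxy
      rw [hE, Finset.mem_image] at hx hy
      obtain ⟨a, _, rfl⟩ := hx
      obtain ⟨b, _, rfl⟩ := hy
      have h3 : a - b ≠ 0 := fun h4 => hxy (by rw [sub_eq_zero.mp h4])
      exact_mod_cast Int.one_le_abs h3)
  have hr : 0 < s0 / s := by positivity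
  have f6 : 1 / (s0 / s) ≤ 32 := by
    rw [one_div_div, div_le_iff₀ hs0p]
    linarith
  have e4 : dil (s0 / s) E0 - dil (t0 / t) E0 = dil (s0 / s) (E0 - dil (t0 / t * (s / s0)) E0) := by
    rw [BMU_dil hr.ne', div_div_eq_mul_div (t0 / t) s0 s, mul_div_assoc]
  have f7 := BMU_scale h hr f6 (E0 - dil (t0 / t * (s / s0)) E0)
  rw [← e4] at f7
  have n1 : (0 : ℝ) ≤ cov 1 (dil (s0 / s) E0 - E) := Nat.cast_nonneg _
  have n2 : (0 : ℝ) ≤ cov 1 (E - dil (t0 / t) E0) := Nat.cast_nonneg _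
  have n3 : (0 : ℝ) ≤ cov 1 (dil (s0 / s) E0 - dil (t0 / t) E0) := Nat.cast_nonneg _
  have n4 : (0 : ℝ) ≤ A.card := Nat.cast_nonneg _
  have g1 : (cov 1 (dil (s0 / s) E0 - E) : ℝ) * cov 1 (E - dil (t0 / t) E0) ≤ (24 * K) * (12 * K) :=
    mul_le_mul (by linarith) f2 n2 (by positivity)
  calc (cov 1 (E0 - dil (t0 / t * (s / s0)) E0) : ℝ) * A.card
      ≤ ((32 + 2) * cov 1 (dil (s0 / s) E0 - dil (t0 / t) E0)) * A.card := mul_le_mul_of_nonneg_right f7 n4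
    _ = 34 * (cov 1 (dil (s0 / s) E0 - dil (t0 / t) E0) * A.card) := by ring
    _ ≤ 34 * (cov 1 (dil (s0 / s) E0 - dil (t0 / t) E0) * cov 1 E) :=
        mul_le_mul_of_nonneg_left (mul_le_mul_of_nonneg_left f5 n3) (by norm_num)
    _ ≤ 34 * (8 * ((24 * K) * (12 * K))) := by
        refine mul_le_mul_of_nonneg_left (f4.trans ?_) (by norm_num)
        exact mul_le_mul_of_nonneg_left g1 (by norm_num)
    _ = 78336 * K ^ 2 := by ring

end

end Pool.Agent.HH
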